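import Pool.Agent.W617.LG.StmI

/-!
Laugwitz' problem: coefficients of the power series in `κ` (S_SER from S_POIN).
-/

set_option autoImplicit false
open Topology Filter Set
open scoped ContDiff InnerProductSpace

namespace Pool.Agent.W308.LGS

open Pool.Agent.W617.LG

/-- operators -/
abbrev L (q : ℕ) := E q →L[ℝ] E q

/-- the form `v ↦ b(y) M_v(y)` -/
noncomputable def om {q : ℕ} (M : TF q) (b : E q → L q) (y : E q) : E q →L[ℝ] L q :=
  (ContinuousLinearMap.compL ℝ (E q) (E q) (E q) (b y)).comp (M y)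

theorem om_apply {q : ℕ} (M : TF q) (b : E q → L q) (y v : E q) :
    om M b y v = (b y).comp (M y v) := rfl

/-- admissible coefficients -/
def Adm {q : ℕ} (M : TF q) (b : E q → L q) : Prop :=
  (∀ y, y ≠ 0 → ContDiffAt ℝ 1 b y) ∧ ∃ b' : E q → L q, ∀ y, y ≠ 0 → HasFDerivAt b (om M b' y) y

theorem adm_id {q : ℕ} (M : TF q) : Adm M (fun _ => ContinuousLinearMap.id ℝ (E q)) := by
  refine ⟨fun y _ => contDiffAt_const, fun _ => 0, fun y _ => ?_⟩
  have h : om M (fun _ => (0 : L q)) y = 0 := by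
    ext v w
    simp [om]
  rw [h]
  exact hasFDerivAt_const _ _

theorem om_smooth {q : ℕ} {G : E q → E q →L[ℝ] E q} {M : TF q} (hM : HD q G M) {b : E q → L q}
    (hb : Adm M b) (y : E q) (hy : y ≠ 0) : ContDiffAt ℝ 1 (om M b) y := by
  unfold om
  refine ContDiffAt.clm_comp ?_ ((hM.Msm y hy).of_le (by simp))
  have h1 : ContDiff ℝ 1 (fun T : E q →L[ℝ] E q => ContinuousLinearMap.compL ℝ (E q) (E q) (E q) T) :=
    ContinuousLinearMap.contDiff (𝕜 := ℝ) (E := E q →L[ℝ] E q)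
      (F := (E q →L[ℝ] E q) →L[ℝ] (E q →L[ℝ] E q)) (ContinuousLinearMap.compL ℝ (E q) (E q) (E q))
  exact h1.contDiffAt.comp y (hb.1 y hy)

theorem om_closed {q : ℕ} {G : E q → E q →L[ℝ] E q} {M : TF q} (hM : HD q G M) {b : E q → L q}
    (hb : Adm M b) (y : E q) (hy : y ≠ 0) (u v : E q) :
    fderiv ℝ (om M b) y u v = fderiv ℝ (om M b) y v u := by
  obtain ⟨b', hb'⟩ := hb.2
  have hMd : DifferentiableAt ℝ M y := (hM.Msm y hy).differentiableAt (by simp)
  have h1 : HasFDerivAt (fun z => ContinuousLinearMap.compL ℝ (E q) (E q) (E q) (b z))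
      ((ContinuousLinearMap.compL ℝ (E q) (E q) (E q)).comp (om M b' y)) y := by
    have h0 : HasFDerivAt (fun T : E q →L[ℝ] E q => ContinuousLinearMap.compL ℝ (E q) (E q) (E q) T)
        (ContinuousLinearMap.compL ℝ (E q) (E q) (E q)) (b y) :=
      ContinuousLinearMap.hasFDerivAt (𝕜 := ℝ) (E := E q →L[ℝ] E q)
        (F := (E q →L[ℝ] E q) →L[ℝ] (E q →L[ℝ] E q)) (ContinuousLinearMap.compL ℝ (E q) (E q) (E q))
    exact HasFDerivAt.comp (E := E q) (F := E q →L[ℝ] E q)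
      (G := (E q →L[ℝ] E q) →L[ℝ] (E q →L[ℝ] E q)) y h0 (hb' y hy)
  have h2 := h1.clm_comp hMd.hasFDerivAt
  have h3 : fderiv ℝ (om M b) y = _ := h2.fderiv
  rw [h3]
  ext w
  simp only [_root_.add_apply, ContinuousLinearMap.comp_apply,
    ContinuousLinearMap.compL_apply, ContinuousLinearMap.flip_apply, om_apply,
    hM.Mcod y hy u v, hM.Mcomm y hy u v]

theorem exists_step {q : ℕ} (hP : S_POIN) {G : E q → E q →L[ℝ] E q} {M : TF q} (hM : HD q G M)
    (p : E q) (b : E q → L q) (hb : Adm M b) :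
    ∃ c : E q → L q, Adm M c ∧ (∀ y, y ≠ 0 → HasFDerivAt c (om M b y) y) ∧ c p = 0 := by
  obtain ⟨f, hf⟩ := hP q hM.q1 (L q) (om M b) (om_smooth hM hb) (fun x hx u v =>
    om_closed hM hb x hx u v)
  have hc : ∀ y, y ≠ 0 → HasFDerivAt (fun y => f y - f p) (om M b y) y := fun y hy =>
    (hf y hy).sub_const _
  refine ⟨fun y => f y - f p, ⟨fun y hy => ?_, b, hc⟩, hc, sub_self _⟩
  have h1 : ContDiffAt ℝ ((0 : ℕ) + 1) (fun y => f y - f p) y := by
    rw [contDiffAt_succ_iff_hasFDerivAt]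
    refine ⟨om M b, ⟨{z | z ≠ 0}, isOpen_ne.mem_nhds hy, fun z hz => hc z hz⟩, ?_⟩
    exact (om_smooth hM hb y hy).of_le (by simp)
  simpa using h1

open Classical in
/-- the sequence -/
noncomputable def sq {q : ℕ} (M : TF q) (p : E q) : ℕ → {b : E q → L q // Adm M b}
  | 0 => ⟨_, adm_id M⟩
  | j + 1 =>
    if h : ∃ c : {b : E q → L q // Adm M b},
      (∀ y, y ≠ 0 → HasFDerivAt c.1 (om M (sq M p j).1 y) y) ∧ c.1 p = 0 then h.choose
    else ⟨_, adm_id M⟩

theorem sq_spec {q : ℕ} (hP : S_POIN) {G : E q → E q →L[ℝ] E q} {M : TF q} (hM : HD q G M)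
    (p : E q) (j : ℕ) :
    (∀ y, y ≠ 0 → HasFDerivAt (sq M p (j + 1)).1 (om M (sq M p j).1 y) y) ∧
      (sq M p (j + 1)).1 p = 0 := by
  have h : ∃ c : {b : E q → L q // Adm M b},
      (∀ y, y ≠ 0 → HasFDerivAt c.1 (om M (sq M p j).1 y) y) ∧ c.1 p = 0 := by
    obtain ⟨c, hc1, hc2, hc3⟩ := exists_step hP hM p (sq M p j).1 (sq M p j).2
    exact ⟨⟨c, hc1⟩, hc2, hc3⟩
  have e : sq M p (j + 1) = h.choose := by
    rw [sq, dif_pos h]
  rw [e]
  exact h.choose_spec

/-- homogeneity -/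
theorem homog {q : ℕ} {G : E q → E q →L[ℝ] E q} {M : TF q} (hM : HD q G M) {b c : E q → L q}
    (hc : ∀ y, y ≠ 0 → HasFDerivAt c (om M b y) y) (y : E q) (hy : y ≠ 0) (r : ℝ) (hr : 0 < r) :
    c (r • y) = c y := by
  have h1 : ∀ t : ℝ, HasDerivAt (fun t : ℝ => c (Real.exp t • y)) 0 t := by
    intro t
    have hne : Real.exp t • y ≠ 0 := smul_ne_zero (Real.exp_pos t).ne' hy
    have h2 : HasDerivAt (fun t : ℝ => Real.exp t • y) (Real.exp t • y) t :=
      (Real.hasDerivAt_exp t).smul_const y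
    have h3 := (hc _ hne).comp_hasDerivAt t h2
    rw [om_apply, hM.Mrad _ hne, ContinuousLinearMap.comp_zero] at h3
    exact h3
  have h2 := is_const_of_deriv_eq_zero (f := fun t : ℝ => c (Real.exp t • y))
    (fun t => (h1 t).differentiableAt) (fun t => (h1 t).deriv) (Real.log r) 0
  simp only [Real.exp_log hr, Real.exp_zero, one_smul] at h2
  exact h2

/-- one segment -/
theorem segment {q : ℕ} {M : TF q} {K : ℝ} (hK : 0 ≤ K) {B : ℕ → E q → L q}
    (hB0 : ∀ y, ‖B 0 y‖ ≤ 1) (hB : ∀ j y, y ≠ 0 → HasFDerivAt (B (j + 1)) (om M (B j) y) y)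
    (hMK : ∀ y, y ≠ 0 → ‖M y‖ * ‖y‖ ≤ K) {a b : E q} (ha : ‖a‖ = 1) (hb : ‖b‖ = 1)
    (hab : ⟪a, b⟫_ℝ = 0) {t0 : ℝ} (_ht0 : 0 ≤ t0)
    (h0 : ∀ j, ‖B j a‖ ≤ (2 * K * t0) ^ j / (j.factorial : ℝ)) (j : ℕ) :
    ∀ s ∈ Icc (0 : ℝ) 1, ‖B j (a + s • (b - a))‖ ≤ (2 * K * (t0 + s)) ^ j / (j.factorial : ℝ) := by
  have hγ : ∀ s : ℝ, ‖a + s • (b - a)‖ ^ 2 = (1 - s) ^ 2 + s ^ 2 := by
    intro s
    have e : a + s • (b - a) = (1 - s) • a + s • b := by
      rw [sub_smul, one_smul, smul_sub]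
      abel
    rw [e, ← real_inner_self_eq_norm_sq, inner_add_left, inner_add_right, inner_add_right,
      real_inner_smul_left, real_inner_smul_left, real_inner_smul_left, real_inner_smul_left,
      real_inner_smul_right, real_inner_smul_right, real_inner_smul_right, real_inner_smul_right,
      hab, real_inner_comm a b, hab, real_inner_self_eq_norm_sq, real_inner_self_eq_norm_sq, ha, hb]
    ring
  have hne : ∀ s : ℝ, a + s • (b - a) ≠ 0 := by
    intro s h
    have h1 := hγ s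
    rw [h, norm_zero] at h1
    nlinarith [sq_nonneg (1 - 2 * s)]
  have hd : ‖b - a‖ ^ 2 = 2 := by
    rw [← real_inner_self_eq_norm_sq, inner_sub_left, inner_sub_right, inner_sub_right,
      hab, real_inner_comm a b, hab, real_inner_self_eq_norm_sq, real_inner_self_eq_norm_sq, ha, hb]
    norm_num
  have hsp : ∀ s : ℝ, ‖M (a + s • (b - a)) (b - a)‖ ≤ 2 * K := by
    intro s
    have h1 := hMK _ (hne s)
    have h2 : ‖b - a‖ ≤ 2 * ‖a + s • (b - a)‖ := by
      have h3 : ‖b - a‖ ^ 2 ≤ (2 * ‖a + s • (b - a)‖) ^ 2 := by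
        rw [mul_pow, hγ s, hd]
        nlinarith [sq_nonneg (1 - 2 * s)]
      exact (pow_le_pow_iff_left₀ (norm_nonneg _) (by positivity) (by norm_num)).1 h3
    calc ‖M (a + s • (b - a)) (b - a)‖ ≤ ‖M (a + s • (b - a))‖ * ‖b - a‖ :=
          ContinuousLinearMap.le_opNorm _ _
      _ ≤ ‖M (a + s • (b - a))‖ * (2 * ‖a + s • (b - a)‖) :=
          mul_le_mul_of_nonneg_left h2 (norm_nonneg (M (a + s • (b - a))))
      _ ≤ 2 * K := by linarith
  have hγd : ∀ s : ℝ, HasDerivAt (fun s : ℝ => a + s • (b - a)) (b - a) s := by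
    intro s
    have h1 : HasDerivAt (fun s : ℝ => s • (b - a)) ((1 : ℝ) • (b - a)) s :=
      (hasDerivAt_id s).smul_const (b - a)
    rw [one_smul] at h1
    exact h1.const_add a
  induction j with
  | zero =>
    intro s _
    simpa using hB0 (a + s • (b - a))
  | succ j ih =>
    have hder : ∀ s : ℝ, HasDerivAt (fun s : ℝ => B (j + 1) (a + s • (b - a)))
        ((B j (a + s • (b - a))).comp (M (a + s • (b - a)) (b - a))) s := by
      intro s
      have h1 := (hB j _ (hne s)).comp_hasDerivAt s (hγd s)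
      rwa [om_apply] at h1
    have hBd : ∀ s : ℝ, HasDerivAt (fun s : ℝ => (2 * K * (t0 + s)) ^ (j + 1) /
        (((j + 1).factorial : ℕ) : ℝ)) (2 * K * ((2 * K * (t0 + s)) ^ j / (j.factorial : ℝ))) s := by
      intro s
      have h1 : HasDerivAt (fun s : ℝ => 2 * K * (t0 + s)) (2 * K) s := by
        have h2 := ((hasDerivAt_id s).const_add t0).const_mul (2 * K)
        rw [mul_one] at h2
        exact h2
      have h3 := (h1.pow (j + 1)).div_const (((j + 1).factorial : ℕ) : ℝ)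
      refine h3.congr_deriv ?_
      rw [Nat.factorial_succ, Nat.add_sub_cancel]
      have h4 : ((j.factorial : ℕ) : ℝ) ≠ 0 := by exact_mod_cast j.factorial_ne_zero
      have h5 : ((j : ℝ) + 1) ≠ 0 := by positivity
      push_cast
      field_simp
    intro s hs
    refine image_norm_le_of_norm_deriv_right_le_deriv_boundary (a := 0) (b := 1)
      (f := fun s : ℝ => B (j + 1) (a + s • (b - a)))
      (f' := fun s => (B j (a + s • (b - a))).comp (M (a + s • (b - a)) (b - a)))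
      (fun x _ => (hder x).continuousAt.continuousWithinAt)
      (fun x _ => (hder x).hasDerivWithinAt) ?_ hBd ?_ hs
    · have := h0 (j + 1)
      simpa using this
    · intro x hx
      refine (ContinuousLinearMap.opNorm_comp_le _ _).trans ?_
      rw [mul_comm]
      exact mul_le_mul (hsp x) (ih x (Ico_subset_Icc_self hx)) (norm_nonneg _) (by positivity)

theorem exists_orth {q : ℕ} (hq : 1 ≤ q) (a b : E q) : ∃ w : E q, ‖w‖ = 1 ∧ ⟪a, w⟫_ℝ = 0 ∧
    ⟪w, b⟫_ℝ = 0 := by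
  classical
  set S : Submodule ℝ (E q) := Submodule.span ℝ (({a, b} : Finset (E q)) : Set (E q)) with hS
  have hne : Sᗮ ≠ ⊥ := by
    intro h
    rw [Submodule.orthogonal_eq_bot_iff] at h
    have h1 : Module.finrank ℝ S ≤ ({a, b} : Finset (E q)).card := finrank_span_finset_le_card _
    rw [h, finrank_top, finrank_euclideanSpace, Fintype.card_fin] at h1
    have h2 := Finset.card_le_two (a := a) (b := b)
    omega
  obtain ⟨v, hv, hv0⟩ := Submodule.exists_mem_ne_zero_of_ne_bot hne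
  have hnv : ‖v‖ ≠ 0 := norm_ne_zero_iff.2 hv0
  have hav : ⟪a, v⟫_ℝ = 0 := by
    rw [Submodule.mem_orthogonal] at hv
    exact hv a (Submodule.subset_span (by simp))
  have hbv : ⟪b, v⟫_ℝ = 0 := by
    rw [Submodule.mem_orthogonal] at hv
    exact hv b (Submodule.subset_span (by simp))
  refine ⟨‖v‖⁻¹ • v, ?_, ?_, ?_⟩
  · rw [norm_smul, norm_inv, norm_norm, inv_mul_cancel₀ hnv]
  · rw [real_inner_smul_right, hav, mul_zero]
  · rw [real_inner_smul_left, real_inner_comm, hbv, mul_zero]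

theorem exists_K {q : ℕ} {G : E q → E q →L[ℝ] E q} {M : TF q} (hM : HD q G M) :
    ∃ K : ℝ, 0 ≤ K ∧ ∀ y, y ≠ 0 → ‖M y‖ * ‖y‖ ≤ K := by
  have hc : ContinuousOn M (Metric.sphere (0 : E q) 1) := by
    intro y hy
    have hy0 : y ≠ 0 := by
      rintro rfl
      simp at hy
    exact (hM.Msm y hy0).continuousAt.continuousWithinAt
  obtain ⟨K, hK⟩ := IsCompact.exists_bound_of_continuousOn (E := E q →L[ℝ] E q →L[ℝ] E q)
    (isCompact_sphere (0 : E q) 1) hc
  refine ⟨max K 0, le_max_right _ _, fun y hy => ?_⟩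
  have hn : 0 < ‖y‖ := norm_pos_iff.2 hy
  have h1 := hM.Mhom y hy ‖y‖⁻¹ (inv_pos.2 hn)
  have h2 : ‖y‖⁻¹ • y ∈ Metric.sphere (0 : E q) 1 := by
    rw [mem_sphere_zero_iff_norm, norm_smul, norm_inv, norm_norm, inv_mul_cancel₀ hn.ne']
  have h3 := hK _ h2
  rw [h1, inv_inv, norm_smul_of_nonneg hn.le (M y)] at h3
  rw [mul_comm]
  exact h3.trans (le_max_left _ _)

theorem main : S_POIN → S_SER := by
  intro hP q G M hM
  obtain ⟨K, hK0, hK⟩ := exists_K hM
  set p : E q := EuclideanSpace.single 0 1 with hp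
  have hpn : ‖p‖ = 1 := by
    rw [hp, PiLp.norm_single, norm_one]
  have hp0 : p ≠ 0 := by
    intro h
    rw [h, norm_zero] at hpn
    exact zero_ne_one hpn
  set B : ℕ → E q → L q := fun j => (sq M p j).1 with hB
  have hBs : ∀ j y, y ≠ 0 → HasFDerivAt (B (j + 1)) (om M (B j) y) y := fun j y hy =>
    (sq_spec hP hM p j).1 y hy
  have hBp : ∀ j, B (j + 1) p = 0 := fun j => (sq_spec hP hM p j).2
  have hB0 : B 0 = fun _ => ContinuousLinearMap.id ℝ (E q) := rfl
  have hB0n : ∀ y, ‖B 0 y‖ ≤ 1 := fun y => by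
    rw [hB0]
    exact ContinuousLinearMap.norm_id_le
  have hhom : ∀ j y, y ≠ 0 → ∀ r : ℝ, 0 < r → B j (r • y) = B j y := by
    intro j y hy r hr
    rcases j with _ | j
    · rfl
    · exact homog hM (hBs j) y hy r hr
  have hsph : ∀ j (y : E q), ‖y‖ = 1 → ‖B j y‖ ≤ (4 * K) ^ j / (j.factorial : ℝ) := by
    intro j y hy
    obtain ⟨w, hw1, hw2, hw3⟩ := exists_orth hM.q1 p y
    have s1 : ∀ j, ‖B j w‖ ≤ (2 * K * 1) ^ j / (j.factorial : ℝ) := by
      intro j
      have h1 := segment hK0 hB0n hBs hK hpn hw1 hw2 (le_refl 0) (fun j => by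
        rcases j with _ | j
        · simpa using hB0n p
        · rw [hBp j, norm_zero]
          simp) j 1 ⟨zero_le_one, le_rfl⟩
      rw [one_smul, add_sub_cancel, zero_add] at h1
      exact h1
    have h2 := segment hK0 hB0n hBs hK hw1 hy hw3 zero_le_one s1 j 1 ⟨zero_le_one, le_rfl⟩
    rw [one_smul, add_sub_cancel] at h2
    have e : 2 * K * (1 + 1) = 4 * K := by ring
    rwa [e] at h2
  refine ⟨B, 4 * K, p, by positivity, hp0, hB0, hBs, fun j y hy => ?_, hhom, hBp⟩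
  have hn : 0 < ‖y‖ := norm_pos_iff.2 hy
  rw [← hhom j y hy ‖y‖⁻¹ (inv_pos.2 hn)]
  apply hsph
  rw [norm_smul, norm_inv, norm_norm, inv_mul_cancel₀ hn.ne']

end Pool.Agent.W308.LGS
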